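import Pool.Agent.U64.FD.Fin

/-!
# A finite-dimensional connected compact space with a low₂ presentation and no computable one

For a set `S` of natural numbers let `X S` be the compact space of all sequences
`(z, r₀w₀, r₁w₁, …)`, where `z` and the `w n` are points of the circle with `M n • w n = z` (the `M n`
are the Fermat numbers, which are pairwise coprime), `0 ≤ r n ≤ 1`, `r n = 1` for `n ∈ S`, and at most
one of the radii `r n` is different from `1`. So `X S` is a solenoid with the mapping cylinders of
the coverings which forget `w n` attached for all `n ∉ S`; it is a connected compactum of
dimension two. The map `z : X S → circle` is divisible by `M n` in the group of continuous maps to the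
circle if and only if `n ∈ S`. The divisibility is a `Σ⁰₂` condition on a computable presentation
(of a compact space), while the points of `X S` can be enumerated from an enumeration of the complement of
`S`. So for `S` the complement of the jump of `D` the space has a `D`-computable presentation, and it
has no computable presentation unless the jump of `D` is computable in the jump of the empty set. Finally there
is a degree `D` which is low₂ and not low.

The machinery on the computability of divisibility is the one of the starting library for
`S14549` (project LQ, with an infinite-dimensional space).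
-/

set_option autoImplicit false

namespace Pool.Agent.Results.MP_f0c992_lc.FiniteDimConnected

open Pool.Agent.Helper227 Pool.Agent.U64.FD
open Pool.Agent.W952.LP (zero DimLE)

/-- `D` has low`ₙ` degree: the `n`-th Turing jumps of `D` and of the empty set are Turing
equivalent. -/
def LowN (n : ℕ) (D : ℕ → Bool) : Prop :=
  TLe (jump^[n] D) (jump^[n] zero) ∧ TLe (jump^[n] zero) (jump^[n] D)

theorem iter_jump {A B : ℕ → Bool} (h : TLe A B) (n : ℕ) : TLe (jump^[n] A) (jump^[n] B) := by
  induction n with
  | zero => exact h
  | succ n ih =>
    rw [Function.iterate_succ_apply', Function.iterate_succ_apply']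
    exact ih.jump

theorem low_add {D : ℕ → Bool} (h0 : TLe zero D) (h : TLe (jump^[2] D) (jump^[2] zero)) (n : ℕ) :
    LowN (n + 2) D := by
  refine ⟨?_, iter_jump h0 _⟩
  rw [Function.iterate_add_apply, Function.iterate_add_apply]
  exact iter_jump h n

/-- **Main theorem.** There is a compact connected space of finite covering dimension which has a
presentation computable in a set of low₂ (and so low₄) degree, but which is not homeomorphic to any
computably presented Polish space. -/
theorem result : ∃ D : ℕ → Bool, LowN 2 D ∧ LowN 4 D ∧
    ∃ (X : Type) (_ : TopologicalSpace X), CompactSpace X ∧ ConnectedSpace X ∧ (∃ m, DimLE X m) ∧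
      PresentedBy (fun f => TuringReducible (fun n => Part.some (f n)) (chi D)) X ∧
      ∀ (Y : Type) [TopologicalSpace Y], Nonempty (X ≃ₜ Y) → ¬ PresentedBy Computable Y := by
  obtain ⟨D, h0, h1, h2⟩ := deg
  obtain ⟨X, tX, hc, hcon, hdim, hp, hn⟩ := core D h1
  exact ⟨D, low_add h0 h2 0, low_add h0 h2 2, X, tX, hc, hcon, ⟨35, hdim⟩, hp, hn⟩

end Pool.Agent.Results.MP_f0c992_lc.FiniteDimConnected
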